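import Mathlib

/-! The clauses falsified by an assignment of small weight, grouped into boundedly many families
each of which is given by few variables. -/

namespace Pool.Agent.H68MN

open Finset Classical

noncomputable section

variable {N : ℕ}

/-- an interval of variables, or a single variable -/
abbrev Code (N : ℕ) : Type := Option (Fin N) × Option (Fin N) × Bool

/-- strictly above / below -/
def above (o : Option (Fin N)) (v : Fin N) : Prop := ∀ a, o = some a → a < v
def below (o : Option (Fin N)) (v : Fin N) : Prop := ∀ a, o = some a → v < a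

/-- the code `γ` covers the literal `l` -/
def cov (γ : Code N) (l : Fin N × Bool) : Prop :=
  (γ.2.2 = true ∧ l.2 = true ∧ above γ.1 l.1 ∧ below γ.2.1 l.1) ∨
  (γ.2.2 = false ∧ l.2 = false ∧ γ.1 = some l.1)

/-- the code is admissible for `T` -/
def adm (T : Finset (Fin N)) (γ : Code N) : Prop :=
  (γ.2.2 = true → ∀ t ∈ T, ¬ (above γ.1 t ∧ below γ.2.1 t)) ∧
  (γ.2.2 = false → ∀ a, γ.1 = some a → a ∈ T)

/-- the admissible codes with end points in `T` -/
def admC (T : Finset (Fin N)) : Finset (Code N) :=
  ((insert none (T.image some)) ×ˢ ((insert none (T.image some)) ×ˢ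
    (Finset.univ : Finset Bool))).filter (adm T)

lemma admC_card (T : Finset (Fin N)) : (admC T).card ≤ 2 * (T.card + 1) ^ 2 := by
  unfold admC
  refine (Finset.card_filter_le _ _).trans ?_
  rw [Finset.card_product, Finset.card_product]
  have h1 : (insert none (T.image some) : Finset (Option (Fin N))).card ≤ T.card + 1 :=
    (Finset.card_insert_le _ _).trans (Nat.add_le_add_right Finset.card_image_le _)
  have h2 : (Finset.univ : Finset Bool).card = 2 := rfl
  rw [h2]
  have h3 := Nat.mul_le_mul h1 h1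
  nlinarith

lemma adm_sound {T : Finset (Fin N)} {γ : Code N} (h : γ ∈ admC T) {l : Fin N × Bool}
    (hl : cov γ l) : ¬ (l.1 ∈ T ↔ l.2 = true) := by
  have h1 := (Finset.mem_filter.mp h).2
  rcases hl with ⟨h2, h3, h4, h5⟩ | ⟨h2, h3, h4⟩
  · intro hcon
    exact h1.1 h2 l.1 (hcon.mpr h3) ⟨h4, h5⟩
  · intro hcon
    have := hcon.mp (h1.2 h2 _ h4)
    rw [h3] at this
    exact absurd this (by simp)

lemma exists_code (T : Finset (Fin N)) {l : Fin N × Bool} (hl : ¬ (l.1 ∈ T ↔ l.2 = true)) :
    ∃ γ ∈ admC T, cov γ l := by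
  obtain ⟨v, β⟩ := l
  cases β with
  | false =>
    have hv : v ∈ T := by
      by_contra h
      exact hl ⟨fun h' => absurd h' h, fun h' => by simp at h'⟩
    refine ⟨(some v, none, false), ?_, Or.inr ⟨rfl, rfl, rfl⟩⟩
    simp only [admC, Finset.mem_filter, Finset.mem_product, Finset.mem_insert, Finset.mem_image,
      Finset.mem_univ, and_true]
    refine ⟨⟨Or.inr ⟨v, hv, rfl⟩, Or.inl trivial⟩, ?_⟩
    unfold adm
    refine ⟨fun h => by simp at h, ?_⟩
    intro _ a ha
    simp only [Option.some.injEq] at ha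
    exact ha ▸ hv
  | true =>
    have hv : v ∉ T := by
      intro h
      exact hl ⟨fun _ => rfl, fun _ => h⟩
    obtain ⟨lo, hlo1, hlo2, hlo3⟩ : ∃ lo : Option (Fin N),
        lo ∈ (insert none (T.image some) : Finset (Option (Fin N))) ∧ above lo v ∧
        ∀ t ∈ T, t < v → ¬ above lo t := by
      by_cases h : (T.filter (· < v)).Nonempty
      · have hm := Finset.max'_mem _ h
        rw [Finset.mem_filter] at hm
        refine ⟨some ((T.filter (· < v)).max' h), ?_, ?_, ?_⟩
        · exact Finset.mem_insert_of_mem (Finset.mem_image_of_mem _ hm.1)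
        · intro a ha
          rw [Option.some.injEq] at ha
          rw [← ha]
          exact hm.2
        · intro t ht htv hab
          have h1 := hab _ rfl
          have h2 := Finset.le_max' (T.filter (· < v)) t (Finset.mem_filter.mpr ⟨ht, htv⟩)
          exact absurd h1 (not_lt.mpr h2)
      · refine ⟨none, Finset.mem_insert_self _ _, fun a ha => by simp at ha, ?_⟩
        intro t ht htv _
        exact h ⟨t, Finset.mem_filter.mpr ⟨ht, htv⟩⟩
    obtain ⟨hi, hhi1, hhi2, hhi3⟩ : ∃ hi : Option (Fin N),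
        hi ∈ (insert none (T.image some) : Finset (Option (Fin N))) ∧ below hi v ∧
        ∀ t ∈ T, v < t → ¬ below hi t := by
      by_cases h : (T.filter (v < ·)).Nonempty
      · have hm := Finset.min'_mem _ h
        rw [Finset.mem_filter] at hm
        refine ⟨some ((T.filter (v < ·)).min' h), ?_, ?_, ?_⟩
        · exact Finset.mem_insert_of_mem (Finset.mem_image_of_mem _ hm.1)
        · intro a ha
          rw [Option.some.injEq] at ha
          rw [← ha]
          exact hm.2
        · intro t ht htv hab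
          have h1 := hab _ rfl
          have h2 := Finset.min'_le (T.filter (v < ·)) t (Finset.mem_filter.mpr ⟨ht, htv⟩)
          exact absurd h1 (not_lt.mpr h2)
      · refine ⟨none, Finset.mem_insert_self _ _, fun a ha => by simp at ha, ?_⟩
        intro t ht htv _
        exact h ⟨t, Finset.mem_filter.mpr ⟨ht, htv⟩⟩
    refine ⟨(lo, hi, true), ?_, Or.inl ⟨rfl, rfl, hlo2, hhi2⟩⟩
    simp only [admC, Finset.mem_filter, Finset.mem_product, Finset.mem_univ, and_true]
    refine ⟨⟨hlo1, hhi1⟩, ?_⟩
    unfold adm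
    refine ⟨?_, fun h => by simp at h⟩
    rintro _ t ht ⟨h1, h2⟩
    rcases lt_trichotomy t v with h | h | h
    · exact hlo3 t ht h h1
    · exact hv (h ▸ ht)
    · exact hhi3 t ht h h2

/-- the clauses with at most `d` literals all of which are covered by the codes in `J` -/
def famC (d : ℕ) (J : Fin d → Option (Code N)) : Set (Finset (Fin N × Bool)) :=
  {cl | cl.card ≤ d ∧ ∀ l ∈ cl, ∃ i γ, J i = some γ ∧ cov γ l}

/-- the families of codes admissible for `T` -/
def admJ (d : ℕ) (T : Finset (Fin N)) : Finset (Fin d → Option (Code N)) :=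
  Fintype.piFinset (fun _ => insert none ((admC T).image some))

lemma admJ_card (d : ℕ) (T : Finset (Fin N)) :
    (admJ d T).card ≤ (2 * (T.card + 1) ^ 2 + 1) ^ d := by
  unfold admJ
  rw [Fintype.card_piFinset, Finset.prod_const, Finset.card_univ, Fintype.card_fin]
  apply Nat.pow_le_pow_left
  refine (Finset.card_insert_le _ _).trans ?_
  exact Nat.add_le_add_right (Finset.card_image_le.trans (admC_card T)) _

lemma fam_sound {d : ℕ} {T : Finset (Fin N)} {J : Fin d → Option (Code N)} (hJ : J ∈ admJ d T)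
    {cl : Finset (Fin N × Bool)} (hcl : cl ∈ famC d J) :
    cl.card ≤ d ∧ ∀ l ∈ cl, ¬ (l.1 ∈ T ↔ l.2 = true) := by
  refine ⟨hcl.1, fun l hl => ?_⟩
  obtain ⟨i, γ, h1, h2⟩ := hcl.2 l hl
  have h3 := (Fintype.mem_piFinset.mp hJ) i
  rw [h1] at h3
  simp only [Finset.mem_insert, Finset.mem_image, reduceCtorEq, false_or, Option.some.injEq,
    exists_eq_right] at h3
  exact adm_sound h3 h2

lemma fam_cover {d : ℕ} (T : Finset (Fin N)) {cl : Finset (Fin N × Bool)} (hc : cl.card ≤ d)
    (hf : ∀ l ∈ cl, ¬ (l.1 ∈ T ↔ l.2 = true)) : ∃ J ∈ admJ d T, cl ∈ famC d J := by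
  choose γ h1 h2 using fun l : cl => exists_code T (hf l.1 l.2)
  refine ⟨fun i => if h : i.val < cl.card then
    some (γ (cl.equivFin.symm ⟨i.val, h⟩)) else none, ?_, hc, ?_⟩
  · rw [admJ, Fintype.mem_piFinset]
    intro i
    by_cases h : i.val < cl.card
    · simp only [h, dif_pos]
      exact Finset.mem_insert_of_mem (Finset.mem_image_of_mem _ (h1 _))
    · simp [h]
  · intro l hl
    refine ⟨⟨(cl.equivFin ⟨l, hl⟩).val, lt_of_lt_of_le (cl.equivFin ⟨l, hl⟩).2 hc⟩,
      γ ⟨l, hl⟩, ?_, h2 ⟨l, hl⟩⟩
    simp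

lemma card_codes (d : ℕ) :
    Fintype.card (Fin d → Option (Code N)) = (2 * (N + 1) ^ 2 + 1) ^ d := by
  simp only [Fintype.card_fun, Fintype.card_option, Fintype.card_prod, Fintype.card_fin,
    Fintype.card_bool]
  congr 1
  ring

end

end Pool.Agent.H68MN
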