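import Pool.Agent.H68MN.Pos

set_option linter.unusedSectionVars false

/-! Random matrices with few zeros. -/

namespace Pool.Agent.H68MN

open Finset Classical
open Pool.Agent.H592R2

noncomputable section

variable {E : Type} [Fintype E] [DecidableEq E] {b : ℕ} [NeZero b]

/-- the set of ones: the entries with nonzero label -/
def ys (ω : E → Fin b) : Finset E := Finset.univ.filter (fun e => ω e ≠ 0)

lemma mem_ys {ω : E → Fin b} {e : E} : e ∈ ys ω ↔ ω e ≠ 0 := by simp [ys]

lemma avg_zero (K : Finset E) :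
    avg (fun ω : E → Fin b => ind (∀ e ∈ K, ω e = 0)) = (1 / (b : ℝ)) ^ K.card := by
  have h1 := avg_box (C := E) (T := fun _ => Fin b) K (fun _ => {0})
  have h2 : (fun ω : E → Fin b => ind (∀ e ∈ K, ω e = 0)) =
      fun ω : E → Fin b => ind (∀ e ∈ K, ω e ∈ ({0} : Finset (Fin b))) := by
    funext ω
    simp
  rw [h2, h1]
  simp

/-- the monomials in `D` are all missed, but no set of at most `s` zeros meets all of them -/
def NegEv (s : ℕ) (D : Set (Finset E)) (y : Finset E) : Prop :=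
  (∀ z ∈ D, ∃ e ∈ z, e ∉ y) ∧ ∀ K : Finset E, K.card ≤ s → (∀ z ∈ D, ∃ e ∈ K, e ∈ z) → ∃ e ∈ K, e ∈ y

lemma neg_aux {s r : ℕ} (D : Set (Finset E)) (hD : ∀ z ∈ D, z.card ≤ r) :
    ∀ (j : ℕ) (K0 : Finset E), K0.card + j = s →
      avg (fun ω : E → Fin b => ind ((∀ e ∈ K0, ω e = 0) ∧ NegEv s D (ys ω))) ≤
        ((r : ℝ) / b) ^ j * (1 / (b : ℝ)) ^ K0.card := by
  have hb0 : (0 : ℝ) < b := by exact_mod_cast NeZero.pos b
  intro j
  induction j with
  | zero =>
    intro K0 _
    rw [pow_zero, one_mul, ← avg_zero]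
    exact avg_mono fun ω => ind_mono fun h => h.1
  | succ j ih =>
    intro K0 hK0
    by_cases hall : ∀ z ∈ D, ∃ e ∈ K0, e ∈ z
    · have h0 : (fun ω : E → Fin b => ind ((∀ e ∈ K0, ω e = 0) ∧ NegEv s D (ys ω))) =
          fun _ => (0 : ℝ) := by
        funext ω
        apply ind_false
        rintro ⟨h1, _, h3⟩
        obtain ⟨e, he1, he2⟩ := h3 K0 (by omega) hall
        exact mem_ys.mp he2 (h1 e he1)
      rw [h0]
      have : avg (fun _ : E → Fin b => (0 : ℝ)) = 0 := avg_const 0
      rw [this]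
      positivity
    · push Not at hall
      obtain ⟨z, hz, hzK⟩ := hall
      have h1 : ∀ ω : E → Fin b, ind ((∀ e ∈ K0, ω e = 0) ∧ NegEv s D (ys ω)) ≤
          ∑ e ∈ z, ind ((∀ e' ∈ insert e K0, ω e' = 0) ∧ NegEv s D (ys ω)) := by
        intro ω
        refine (ind_mono ?_).trans (ind_exists_le _ _)
        rintro ⟨h2, h3⟩
        obtain ⟨e, he1, he2⟩ := h3.1 z hz
        refine ⟨e, he1, ?_, h3⟩
        intro e' he'
        rcases Finset.mem_insert.mp he' with rfl | h
        · by_contra hne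
          exact he2 (mem_ys.mpr hne)
        · exact h2 e' h
      refine (avg_mono h1).trans ?_
      rw [avg_sum]
      have h4 : ∀ e ∈ z, avg (fun ω : E → Fin b =>
          ind ((∀ e' ∈ insert e K0, ω e' = 0) ∧ NegEv s D (ys ω))) ≤
          ((r : ℝ) / b) ^ j * (1 / (b : ℝ)) ^ (K0.card + 1) := by
        intro e he
        have h5 : e ∉ K0 := fun h => hzK e h he
        have h6 : (insert e K0).card = K0.card + 1 := Finset.card_insert_of_notMem h5
        have h7 := ih (insert e K0) (by omega)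
        rw [h6] at h7
        exact h7
      refine (Finset.sum_le_sum h4).trans ?_
      rw [Finset.sum_const, nsmul_eq_mul]
      have h8 : (z.card : ℝ) ≤ r := by exact_mod_cast hD z hz
      have h9 : 0 ≤ ((r : ℝ) / b) ^ j * (1 / (b : ℝ)) ^ (K0.card + 1) := by positivity
      refine (mul_le_mul_of_nonneg_right h8 h9).trans_eq ?_
      rw [pow_succ, pow_succ]
      ring

/-- **Negative lemma.** -/
theorem neg_lemma {s r : ℕ} (D : Set (Finset E)) (hD : ∀ z ∈ D, z.card ≤ r) :
    avg (fun ω : E → Fin b => ind (NegEv s D (ys ω))) ≤ ((r : ℝ) / b) ^ s := by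
  have h1 := neg_aux (b := b) (s := s) (r := r) D hD s ∅ (by simp)
  simpa using h1

/-- few ones are all present -/
lemma avg_missing (Z : Finset E) :
    avg (fun ω : E → Fin b => ind (¬ Z ⊆ ys ω)) ≤ (Z.card : ℝ) / b := by
  have h1 : ∀ ω : E → Fin b, ind (¬ Z ⊆ ys ω) ≤ ∑ e ∈ Z, ind (∀ e' ∈ ({e} : Finset E), ω e' = 0) := by
    intro ω
    refine (ind_mono ?_).trans (ind_exists_le _ _)
    intro h
    rw [Finset.not_subset] at h
    obtain ⟨e, he1, he2⟩ := h
    refine ⟨e, he1, ?_⟩
    intro e' he'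
    rw [Finset.mem_singleton] at he'
    subst he'
    by_contra hne
    exact he2 (mem_ys.mpr hne)
  refine (avg_mono h1).trans ?_
  rw [avg_sum]
  simp only [avg_zero, Finset.card_singleton, pow_one]
  rw [Finset.sum_const, nsmul_eq_mul, mul_one_div]

end

section rect

variable {n b : ℕ} [NeZero b]

/-- the columns in `T` meet every row -/
lemma avg_cover (T : Finset (Fin n)) :
    avg (fun ω : Fin n × Fin n → Fin b => ind (∀ i, ∃ j ∈ T, ω (i, j) ≠ 0)) =
      (1 - (1 / (b : ℝ)) ^ T.card) ^ n := by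
  have hb0 : (0 : ℝ) < b := by exact_mod_cast NeZero.pos b
  -- pass to functions from rows to rows of labels
  have e1 : avg (fun ω : Fin n × Fin n → Fin b => ind (∀ i, ∃ j ∈ T, ω (i, j) ≠ 0)) =
      avg (fun ω : Fin n → (Fin n → Fin b) => ind (∀ i, ∃ j ∈ T, ω i j ≠ 0)) := by
    unfold avg
    rw [Fintype.card_congr (Equiv.curry (Fin n) (Fin n) (Fin b))]
    congr 1
    exact Fintype.sum_equiv (Equiv.curry (Fin n) (Fin n) (Fin b)) _ _ (fun ω => rfl)
  rw [e1]
  have h1 := avg_box (C := Fin n) (T := fun _ => Fin n → Fin b) Finset.univ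
    (fun _ => Finset.univ.filter (fun f => ∃ j ∈ T, f j ≠ 0))
  have h2 : (fun ω : Fin n → (Fin n → Fin b) => ind (∀ i ∈ (Finset.univ : Finset (Fin n)),
      ω i ∈ Finset.univ.filter (fun f : Fin n → Fin b => ∃ j ∈ T, f j ≠ 0))) =
      fun ω => ind (∀ i, ∃ j ∈ T, ω i j ≠ 0) := by
    funext ω
    simp
  rw [h2] at h1
  rw [h1, Finset.prod_const, Finset.card_univ, Fintype.card_fin]
  congr 1
  have h3 := avg_zero (E := Fin n) (b := b) T
  have h4 : avg (fun f : Fin n → Fin b => ind (∀ e ∈ T, f e = 0)) =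
      1 - ((Finset.univ.filter (fun f : Fin n → Fin b => ∃ j ∈ T, f j ≠ 0)).card : ℝ) /
        (Fintype.card (Fin n → Fin b) : ℝ) := by
    have h5 : ∀ f : Fin n → Fin b, ind (∀ e ∈ T, f e = 0) =
        1 - (if ∃ j ∈ T, f j ≠ 0 then (1 : ℝ) else 0) := by
      intro f
      by_cases h : ∀ e ∈ T, f e = 0
      · rw [ind_true h, if_neg]
        · ring
        · push Not
          exact h
      · rw [ind_false h, if_pos]
        · ring
        · push Not at h
          exact h
    have h6 : (fun f : Fin n → Fin b => ind (∀ e ∈ T, f e = 0)) =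
        fun f => 1 - (if ∃ j ∈ T, f j ≠ 0 then (1 : ℝ) else 0) := funext h5
    rw [h6, avg_sub, avg_const]
    congr 1
    unfold avg
    rw [Finset.sum_boole]
  rw [h3] at h4
  linarith

end rect

end Pool.Agent.H68MN
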