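import Pool.Agent.H68MN.Defs
import Pool.Agent.H68MN.Neg
import Pool.Agent.H68MN.Codes

set_option linter.unusedSectionVars false

/-! Approximation of the gates of a monotone oracle circuit by narrow CNFs. -/

namespace Pool.Agent.H68MN

open Finset Classical
open Pool.Agent.H592R2

noncomputable section

variable {E : Type} {S : ℕ}

/-- the small certificates for the disjunction of two CNFs -/
def certs (r : ℕ) (A B : Set (Finset E)) : Set (Finset E) :=
  {z | z.card ≤ r ∧ (Sat A z ∨ Sat B z)}

/-- the small certificates for an oracle gate, where `A cl` is the CNF for the clause `cl` being left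
out -/
def qcerts (d r w : ℕ) {N : ℕ} (A : Finset (Fin N × Bool) → Set (Finset E)) : Set (Finset E) :=
  {z | z.card ≤ r ∧ ∃ T : Finset (Fin N), T.card = w ∧ ∀ cl : Finset (Fin N × Bool),
    cl.card ≤ d → (∀ l ∈ cl, ¬ (l.1 ∈ T ↔ l.2 = true)) → Sat (A cl) z}

/-- the CNF of all narrow clauses that meet all members of `D` -/
def hitAll (s : ℕ) (D : Set (Finset E)) : Set (Finset E) :=
  {K | K.card ≤ s ∧ ∀ z ∈ D, ∃ e ∈ K, e ∈ z}

/-- the union of the CNFs of the clauses covered by `J` -/
def famK (d : ℕ) {N : ℕ} (A : Finset (Fin N × Bool) → Set (Finset E))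
    (J : Fin d → Option (Code N)) : Set (Finset E) :=
  {K | ∃ cl ∈ famC d J, K ∈ A cl}

/-- the narrow CNF attached to a gate; `r` bounds the size of certificates for single gates, and
`r'` for oracle gates -/
def apx (d : ℕ) (C : Circuit E S) (r r' s : ℕ) (i : Fin S) : Set (Finset E) :=
  match C i with
  | .input e => {{e}}
  | .const v => if v = true then ∅ else {∅}
  | .and a b => apx d C r r' s ⟨a, a.2.trans i.2⟩ ∪ apx d C r r' s ⟨b, b.2.trans i.2⟩
  | .or a b => hitAll s (certs r (apx d C r r' s ⟨a, a.2.trans i.2⟩)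
      (apx d C r r' s ⟨b, b.2.trans i.2⟩))
  | .query _ w out => hitAll s (qcerts d r' w
      (fun cl => apx d C r r' s ⟨out cl, (out cl).2.trans i.2⟩))
termination_by i.val
decreasing_by
  all_goals first
    | exact a.2
    | exact b.2
    | exact (out cl).2

/-- the event that the gate number `i` introduces an error for an input with few zeros -/
def NegBad (d : ℕ) (C : Circuit E S) (r r' s : ℕ) (y : Finset E) (i : Fin S) : Prop :=
  match C i with
  | .or a b => NegEv s (certs r (apx d C r r' s ⟨a, a.2.trans i.2⟩)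
      (apx d C r r' s ⟨b, b.2.trans i.2⟩)) y
  | .query _ w out => NegEv s (qcerts d r' w
      (fun cl => apx d C r r' s ⟨out cl, (out cl).2.trans i.2⟩)) y
  | _ => False

/-- the event that the oracle gate number `i` introduces an error for a sparse input -/
def PosBad (d : ℕ) (C : Circuit E S) (r r' s : ℕ) (x : Finset E) (i : Fin S) : Prop :=
  match C i with
  | .query N _ out => ∃ J ∈ (Finset.univ : Finset (Fin d → Option (Code N))), BadPos r
      (famK d (fun cl => apx d C r r' s ⟨out cl, (out cl).2.trans i.2⟩) J) x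
  | _ => False

/-- the input with ones `x` -/
def inp (x : Finset E) : E → Bool := fun e => decide (e ∈ x)

lemma apx_card (d : ℕ) (C : Circuit E S) {r r' s : ℕ} (hs : 1 ≤ s) (i : Fin S) :
    ∀ K ∈ apx d C r r' s i, K.card ≤ s := by
  obtain ⟨i, hi⟩ := i
  induction i using Nat.strong_induction_on with
  | _ i ih =>
    intro K hK
    rw [apx] at hK
    split at hK
    · rw [Set.mem_singleton_iff] at hK
      subst hK
      simpa using hs
    · split_ifs at hK
      · exact absurd hK (Set.notMem_empty K)
      · rw [Set.mem_singleton_iff] at hK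
        subst hK
        simp
    · next a b _ =>
      rcases hK with hK | hK
      · exact ih a a.2 _ K hK
      · exact ih b b.2 _ K hK
    · exact hK.1
    · exact hK.1

/-- sparse inputs: a gate that is true satisfies its CNF -/
lemma apx_pos (d : ℕ) (C : Circuit E S) {r r' s Λ : ℕ} {x : Finset E} (hr' : Λ * r ≤ r')
    (hq : ∀ i N w out, C i = .query N w out → (2 * (w + 1) ^ 2 + 1) ^ d ≤ Λ)
    (hx : ∀ i, ¬ BadPos r (apx d C r r' s i) x) (hx' : ∀ i, ¬ PosBad d C r r' s x i)
    (i : Fin S) (h : C.eval d (inp x) i = true) :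
    Sat (apx d C r r' s i) x := by
  obtain ⟨i, hi⟩ := i
  induction i using Nat.strong_induction_on with
  | _ i ih =>
    have hkey : ∀ j : Fin S, Sat (apx d C r r' s j) x →
        ∃ z ⊆ x, z.card ≤ r ∧ Sat (apx d C r r' s j) z := by
      intro j hj
      by_contra hcon
      exact hx j ⟨hj, hcon⟩
    have hxi := hx' ⟨i, hi⟩
    rw [PosBad] at hxi
    rw [Circuit.eval] at h
    rw [apx]
    split at h
    · next e heq =>
      rw [heq]
      intro K hK
      rw [Set.mem_singleton_iff] at hK
      subst hK
      refine ⟨e, Finset.mem_singleton_self e, ?_⟩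
      simpa [inp] using h
    · next v heq =>
      rw [heq]
      simp only [h, if_true]
      intro K hK
      exact absurd hK (Set.notMem_empty K)
    · next a b heq =>
      rw [heq]
      rw [Bool.and_eq_true] at h
      intro K hK
      rcases hK with hK | hK
      · exact ih a a.2 _ h.1 K hK
      · exact ih b b.2 _ h.2 K hK
    · next a b heq =>
      rw [heq]
      rw [Bool.or_eq_true] at h
      intro K hK
      rcases h with h | h
      · obtain ⟨z, hz1, hz2, hz3⟩ := hkey _ (ih a a.2 _ h)
        obtain ⟨e, he1, he2⟩ := hK.2 z ⟨hz2, Or.inl hz3⟩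
        exact ⟨e, he1, hz1 he2⟩
      · obtain ⟨z, hz1, hz2, hz3⟩ := hkey _ (ih b b.2 _ h)
        obtain ⟨e, he1, he2⟩ := hK.2 z ⟨hz2, Or.inr hz3⟩
        exact ⟨e, he1, hz1 he2⟩
    · next N w out heq =>
      have hΛ := hq ⟨i, hi⟩ N w out heq
      rw [heq] at hxi ⊢
      simp only [decide_eq_true_eq] at h
      obtain ⟨T, hT1, hT2⟩ := h
      set A : Finset (Fin N × Bool) → Set (Finset E) :=
        fun cl => apx d C r r' s ⟨out cl, (out cl).2.trans hi⟩ with hA
      have hev : ∀ cl : Finset (Fin N × Bool), cl.card ≤ d →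
          (∀ l ∈ cl, ¬ (l.1 ∈ T ↔ l.2 = true)) → Sat (A cl) x := by
        intro cl h1 h2
        apply ih (out cl) (out cl).2
        by_contra hcon
        rw [Bool.not_eq_true] at hcon
        obtain ⟨l, hl1, hl2⟩ := hT2 cl ⟨h1, hcon⟩
        exact h2 l hl1 hl2
      have hcert : ∀ J : Fin d → Option (Code N), ∃ z : Finset E, z ⊆ x ∧ z.card ≤ r ∧
          (J ∈ admJ d T → Sat (famK d A J) z) := by
        intro J
        by_cases hJ : J ∈ admJ d T
        · have h1 : Sat (famK d A J) x := by
            rintro K ⟨cl, hcl, hK⟩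
            have h2 := fam_sound hJ hcl
            exact hev cl h2.1 h2.2 K hK
          have h2 : ∃ z ⊆ x, z.card ≤ r ∧ Sat (famK d A J) z := by
            by_contra hcon
            exact hxi ⟨J, Finset.mem_univ _, h1, hcon⟩
          obtain ⟨z, hz0, hz1, hz2⟩ := h2
          exact ⟨z, hz0, hz1, fun _ => hz2⟩
        · exact ⟨∅, by simp, by simp, fun h => absurd h hJ⟩
      choose z hz0 hz1 hz2 using hcert
      intro K hK
      have hZ : (admJ d T).biUnion z ∈ qcerts d r' w A := by
        refine ⟨?_, T, hT1, ?_⟩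
        · refine Finset.card_biUnion_le.trans ?_
          refine (Finset.sum_le_sum fun J _ => hz1 J).trans ?_
          rw [Finset.sum_const, smul_eq_mul]
          refine le_trans (Nat.mul_le_mul_right _ ?_) hr'
          have := admJ_card d T
          rw [hT1] at this
          exact this.trans hΛ
        · intro cl h1 h2
          obtain ⟨J, hJ, hcl⟩ := fam_cover T h1 h2
          have h3 : Sat (A cl) (z J) := fun K hK => hz2 J hJ K ⟨cl, hcl, hK⟩
          exact h3.mono (Finset.subset_biUnion_of_mem z hJ)
      obtain ⟨e, he1, he2⟩ := hK.2 _ hZ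
      obtain ⟨J, _, he3⟩ := Finset.mem_biUnion.mp he2
      exact ⟨e, he1, hz0 J he3⟩

/-- dense inputs: a gate whose CNF is satisfied is true -/
lemma apx_neg (d : ℕ) (C : Circuit E S) {r r' s : ℕ} {y : Finset E}
    (hy : ∀ i, ¬ NegBad d C r r' s y i) (i : Fin S) (h : Sat (apx d C r r' s i) y) :
    C.eval d (inp y) i = true := by
  obtain ⟨i, hi⟩ := i
  induction i using Nat.strong_induction_on with
  | _ i ih =>
    have hkey : ∀ D : Set (Finset E), ¬ NegEv s D y → Sat (hitAll s D) y → ∃ z ∈ D, z ⊆ y := by
      intro D h1 h2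
      by_contra hcon
      push Not at hcon
      apply h1
      refine ⟨fun z hz => Finset.not_subset.mp (hcon z hz), ?_⟩
      intro K hK1 hK2
      exact h2 K ⟨hK1, hK2⟩
    have hyi := hy ⟨i, hi⟩
    rw [NegBad] at hyi
    rw [apx] at h
    rw [Circuit.eval]
    split at h
    · next e heq =>
      rw [heq]
      obtain ⟨e', he1, he2⟩ := h {e} rfl
      rw [Finset.mem_singleton] at he1
      subst he1
      simpa [inp] using he2
    · next v heq =>
      rw [heq]
      by_cases hv : v = true
      · exact hv
      · rw [if_neg hv] at h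
        obtain ⟨e', he1, _⟩ := h ∅ rfl
        exact absurd he1 (Finset.notMem_empty _)
    · next a b heq =>
      rw [heq]
      simp only [Bool.and_eq_true]
      exact ⟨ih a a.2 _ fun K hK => h K (Or.inl hK), ih b b.2 _ fun K hK => h K (Or.inr hK)⟩
    · next a b heq =>
      rw [heq] at hyi ⊢
      simp only [Bool.or_eq_true]
      obtain ⟨z, ⟨_, hz⟩, hzy⟩ := hkey _ hyi h
      rcases hz with hz | hz
      · exact Or.inl (ih a a.2 _ (hz.mono hzy))
      · exact Or.inr (ih b b.2 _ (hz.mono hzy))
    · next N w out heq =>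
      rw [heq] at hyi ⊢
      simp only [decide_eq_true_eq]
      obtain ⟨z, ⟨_, T, hT1, hT2⟩, hzy⟩ := hkey _ hyi h
      refine ⟨T, hT1, ?_⟩
      rintro cl ⟨h1, h2⟩
      by_contra hcon
      push Not at hcon
      have hcon' : ∀ l ∈ cl, ¬ (l.1 ∈ T ↔ l.2 = true) := by
        intro l hl hh
        rcases hcon l hl with ⟨h3, h4⟩ | ⟨h3, h4⟩
        · exact h4 (hh.mp h3)
        · exact h3 (hh.mpr h4)
      have h5 := ih (out cl) (out cl).2 _ ((hT2 cl h1 hcon').mono hzy)
      rw [h2] at h5
      exact absurd h5 (by simp)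

/-- probability of an error for a random input with few zeros -/
lemma avg_negBad [Fintype E] [DecidableEq E] {b : ℕ} [NeZero b] (d : ℕ) (C : Circuit E S)
    {r r' s : ℕ} (hr : r ≤ r') :
    avg (fun ω : E → Fin b => ind (∃ i ∈ (Finset.univ : Finset (Fin S)),
      NegBad d C r r' s (ys ω) i)) ≤ S * ((r' : ℝ) / b) ^ s := by
  refine (avg_mono fun ω => ind_exists_le _ _).trans ?_
  rw [avg_sum]
  have h1 : ∀ i ∈ (Finset.univ : Finset (Fin S)),
      avg (fun ω : E → Fin b => ind (NegBad d C r r' s (ys ω) i)) ≤ ((r' : ℝ) / b) ^ s := by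
    intro i _
    unfold NegBad
    split
    · exact neg_lemma _ fun z hz => hz.1.trans hr
    · exact neg_lemma _ fun z hz => hz.1
    · have : (fun ω : E → Fin b => ind False) = fun _ => (0 : ℝ) := by
        funext ω
        exact ind_false (fun h => h)
      rw [this, avg_const]
      positivity
  refine (Finset.sum_le_sum h1).trans_eq ?_
  rw [Finset.sum_const, nsmul_eq_mul, Finset.card_univ, Fintype.card_fin]

end

end Pool.Agent.H68MN
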