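import Pool.Agent.H68MN.Pos

set_option linter.unusedSectionVars false

/-! Satisfied narrow CNFs have short certificates: the main induction. -/

namespace Pool.Agent.H68MN

open Finset Classical
open Pool.Agent.H592R2

noncomputable section

variable {k n : ℕ} [NeZero k] [NeZero n]

/-- coordinates of the rows of `K` -/
def rowsOf (k : ℕ) (K : Finset (Fin n × Fin n)) : Finset (Fin k ⊕ Fin n) :=
  K.image (fun e => Sum.inr e.1)

lemma rows_union (R : Set (Fin k ⊕ Fin n)) (K : Finset (Fin n × Fin n)) :
    rows (R ∪ ↑(rowsOf k K)) ≤ rows R + K.card := by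
  unfold rows
  refine le_trans (Finset.card_le_card (?_ : _ ⊆ (Finset.univ.filter (fun i : Fin n =>
    (Sum.inr i : Fin k ⊕ Fin n) ∈ R)) ∪ K.image (fun e => e.1))) ?_
  · intro i hi
    simp only [Finset.mem_filter, Finset.mem_univ, true_and, Set.mem_union, Finset.mem_coe,
      rowsOf, Finset.mem_image, Finset.mem_union] at hi ⊢
    rcases hi with hi | ⟨e, he, hei⟩
    · exact Or.inl hi
    · exact Or.inr ⟨e, he, Sum.inr_injective hei⟩
  · refine (Finset.card_union_le _ _).trans ?_
    exact Nat.add_le_add_left Finset.card_image_le _

lemma cols_union (R : Set (Fin k ⊕ Fin n)) (K : Finset (Fin n × Fin n)) :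
    cols (R ∪ ↑(rowsOf k K)) = cols R := by
  unfold cols
  congr 1
  ext a
  simp [rowsOf]

lemma rows_insert_inl (R : Set (Fin k ⊕ Fin n)) (a : Fin k) :
    rows (insert (Sum.inl a) R) = rows R := by
  unfold rows
  congr 1
  ext i
  simp

lemma cols_insert_inl (R : Set (Fin k ⊕ Fin n)) (a : Fin k) :
    cols (insert (Sum.inl a) R) ≤ cols R + 1 := by
  unfold cols
  refine le_trans (Finset.card_le_card (?_ : _ ⊆ insert a (Finset.univ.filter
    (fun a' : Fin k => (Sum.inl a' : Fin k ⊕ Fin n) ∈ R)))) (Finset.card_insert_le _ _)
  intro a' ha'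
  simp only [Finset.mem_filter, Finset.mem_univ, true_and, Set.mem_insert_iff,
    Finset.mem_insert] at ha' ⊢
  rcases ha' with h | h
  · exact Or.inl (Sum.inl_injective h)
  · exact Or.inr h

theorem pos_main (𝒦 : Set (Finset (Fin n × Fin n))) {s r u : ℕ} (hs : ∀ K ∈ 𝒦, K.card ≤ s) :
    ∀ (l v : ℕ) (R : Set (Fin k ⊕ Fin n)) (a : Om k n), cols R + l ≤ k →
      (l = 0 ∨ rows R + s * v + s * u * (l - 1) ≤ r) →
      avg (fun b : Om k n => ind (BadPos r 𝒦 (xs (mix R a b)))) ≤
        eps ((1 / (k : ℝ)) ^ s) ((s : ℝ) / n) u l v := by
  have hk0 : (0 : ℝ) < k := by exact_mod_cast NeZero.pos k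
  have hn0 : (0 : ℝ) < n := by exact_mod_cast NeZero.pos n
  have hk1 : (1 : ℝ) ≤ k := by exact_mod_cast NeZero.pos k
  have hδ1 : (1 / (k : ℝ)) ^ s ≤ 1 :=
    pow_le_one₀ (by positivity) (by rw [div_le_one hk0]; exact hk1)
  have hq0 : (0 : ℝ) ≤ (s : ℝ) / n := by positivity
  intro l
  induction l with
  | zero =>
    intro v R a _ _
    simp only [eps]
    exact avg_le_of_le fun _ => ind_le_one _
  | succ l ihl =>
    intro v
    induction v with
    | zero =>
      intro R a _ _
      simp only [eps]
      exact avg_le_of_le fun _ => ind_le_one _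
    | succ v ihv =>
      intro R a hc hr
      have hr' : rows R + s * (v + 1) + s * u * l ≤ r := by
        rcases hr with h | h
        · omega
        · simpa using h
      have hepsn : ∀ l v, 0 ≤ eps ((1 / (k : ℝ)) ^ s) ((s : ℝ) / n) u l v :=
        eps_nonneg hδ1 hq0 u
      by_cases hall : Sat 𝒦 (zK R a)
      · -- a certificate is already known
        have h0 : (fun b : Om k n => ind (BadPos r 𝒦 (xs (mix R a b)))) = fun _ => (0 : ℝ) := by
          funext b
          apply ind_false
          rintro ⟨_, h2⟩
          exact h2 ⟨zK R a, zK_sub R a b, (zK_card R a).trans (by omega), hall⟩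
        rw [h0, avg_const]
        exact hepsn _ _
      · unfold Sat at hall
        push Not at hall
        obtain ⟨K, hK, hKz⟩ := hall
        have hKs := hs K hK
        set R' : Set (Fin k ⊕ Fin n) := R ∪ ↑(rowsOf k K) with hR'
        have hsub : R ⊆ R' := Set.subset_union_left
        rw [avg_tower hsub a (fun ω : Om k n => ind (BadPos r 𝒦 (xs ω)))]
        have hrow' : rows R' ≤ rows R + s := (rows_union R K).trans (by omega)
        have hcol' : cols R' = cols R := cols_union R K
        -- a column index that is not yet revealed
        obtain ⟨α, hα⟩ : ∃ α : Fin k, Sum.inl α ∉ R := by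
          by_contra hcon
          push Not at hcon
          have : cols R = k := by
            unfold cols
            rw [Finset.filter_true_of_mem (fun a _ => hcon a), Finset.card_univ, Fintype.card_fin]
          omega
        set F : Finset (Fin k ⊕ Fin n) := (rowsOf k K).filter (fun c => c ∉ R) with hF
        set Dead : Om k n → Prop := fun b' => ∀ c ∈ F,
          b' c ∈ (match c with
            | Sum.inl _ => Finset.univ
            | Sum.inr _ => {α} : Finset (Fin (Sz k n c))) with hDead
        have hpt : ∀ b' : Om k n,
            avg (fun b : Om k n => ind (BadPos r 𝒦 (xs (mix R' (mix R a b') b)))) ≤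
              (1 - ind (Dead b')) * eps ((1 / (k : ℝ)) ^ s) ((s : ℝ) / n) u (l + 1) v +
                (s : ℝ) / n * eps ((1 / (k : ℝ)) ^ s) ((s : ℝ) / n) u l u := by
          intro b'
          set a' := mix R a b' with ha'
          by_cases hhit : ∃ e ∈ K, e ∈ zK R' a'
          · -- the clause is satisfied
            have hnd : ¬ Dead b' := by
              intro hd
              obtain ⟨e, heK, hez⟩ := hhit
              simp only [zK, Finset.mem_filter, Finset.mem_univ, true_and] at hez
              obtain ⟨h1, h2, h3⟩ := hez
              have h2' : Sum.inl (a' (Sum.inr e.1)) ∈ R := by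
                rcases h2 with h2 | h2
                · exact h2
                · simp [rowsOf] at h2
              by_cases h4 : (Sum.inr e.1 : Fin k ⊕ Fin n) ∈ R
              · apply hKz e heK
                have h5 : a' (Sum.inr e.1) = a (Sum.inr e.1) := mix_mem h4
                simp only [zK, Finset.mem_filter, Finset.mem_univ, true_and]
                refine ⟨h4, by rw [← h5]; exact h2', ?_⟩
                have h6 : tcol a' e.1 = tcol a e.1 := by
                  unfold tcol
                  rw [h5]
                  apply mix_mem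
                  rw [← h5]
                  exact h2'
                rw [← h6, h3]
              · have h5 : (Sum.inr e.1 : Fin k ⊕ Fin n) ∈ F := by
                  simp only [hF, Finset.mem_filter]
                  exact ⟨Finset.mem_image_of_mem _ heK, h4⟩
                have h6 := hd _ h5
                simp only [Finset.mem_singleton] at h6
                have h7 : a' (Sum.inr e.1) = b' (Sum.inr e.1) := mix_not_mem h4
                rw [h7, h6] at h2'
                exact hα h2'
            have h8 := ihv R' a' (by omega) (Or.inr (by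
              have h9 : s * (v + 1) = s * v + s := by ring
              simp only [Nat.add_sub_cancel]
              omega))
            rw [ind_false hnd]
            have h10 : 0 ≤ (s : ℝ) / n * eps ((1 / (k : ℝ)) ^ s) ((s : ℝ) / n) u l u :=
              mul_nonneg hq0 (hepsn _ _)
            linarith
          · -- the clause is dead for the revealed columns
            push Not at hhit
            have h1 : ∀ b : Om k n, ind (BadPos r 𝒦 (xs (mix R' a' b))) ≤
                ∑ e ∈ K.filter (fun e => Sum.inl (a' (Sum.inr e.1)) ∉ R'),
                  ind (b (Sum.inl (a' (Sum.inr e.1))) = e.2 ∧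
                    BadPos r 𝒦 (xs (mix R' a' b))) := by
              intro b
              refine (ind_mono ?_).trans (ind_exists_le _ _)
              intro hbad
              obtain ⟨e, heK, hex⟩ := hbad.1 K hK
              simp only [xs, Finset.mem_filter, Finset.mem_univ, true_and] at hex
              have h2 : (Sum.inr e.1 : Fin k ⊕ Fin n) ∈ R' :=
                Or.inr (Finset.mem_coe.mpr (Finset.mem_image_of_mem _ heK))
              unfold tcol at hex
              rw [mix_mem h2] at hex
              have h3 : Sum.inl (a' (Sum.inr e.1)) ∉ R' := by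
                intro h4
                apply hhit e heK
                simp only [zK, Finset.mem_filter, Finset.mem_univ, true_and]
                refine ⟨h2, h4, ?_⟩
                unfold tcol
                rw [← hex, mix_mem h4]
              rw [mix_not_mem h3] at hex
              exact ⟨e, Finset.mem_filter.mpr ⟨heK, h3⟩, hex, hbad⟩
            refine (avg_mono h1).trans ?_
            rw [avg_sum]
            have h4 : ∀ e ∈ K.filter (fun e => Sum.inl (a' (Sum.inr e.1)) ∉ R'),
                avg (fun b : Om k n => ind (b (Sum.inl (a' (Sum.inr e.1))) = e.2 ∧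
                    BadPos r 𝒦 (xs (mix R' a' b)))) ≤
                  (1 / (n : ℝ)) * eps ((1 / (k : ℝ)) ^ s) ((s : ℝ) / n) u l u := by
              intro e he
              have h5 := (Finset.mem_filter.mp he).2
              rw [avg_fix h5 a' e.2 (fun ω => BadPos r 𝒦 (xs ω))]
              refine mul_le_mul_of_nonneg_left ?_ (by positivity)
              apply ihl u
              · have := cols_insert_inl R' (a' (Sum.inr e.1))
                omega
              · rw [rows_insert_inl]
                by_cases hl : l = 0
                · exact Or.inl hl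
                · right
                  obtain ⟨l', rfl⟩ := Nat.exists_eq_succ_of_ne_zero hl
                  have h9 : s * (v + 1) = s * v + s := by ring
                  have h10 : s * u * (l' + 1) = s * u * l' + s * u := by ring
                  simp only [Nat.succ_eq_add_one, Nat.add_sub_cancel] at hr' ⊢
                  omega
            refine (Finset.sum_le_sum h4).trans ?_
            rw [Finset.sum_const, nsmul_eq_mul]
            have h5 : ((K.filter (fun e => Sum.inl (a' (Sum.inr e.1)) ∉ R')).card : ℝ) ≤ s := by
              exact_mod_cast (Finset.card_filter_le _ _).trans hKs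
            have h6 : 0 ≤ (1 / (n : ℝ)) * eps ((1 / (k : ℝ)) ^ s) ((s : ℝ) / n) u l u :=
              mul_nonneg (by positivity) (hepsn _ _)
            have h7 := mul_le_mul_of_nonneg_right h5 h6
            have h8 : (s : ℝ) * ((1 / (n : ℝ)) * eps ((1 / (k : ℝ)) ^ s) ((s : ℝ) / n) u l u) =
                (s : ℝ) / n * eps ((1 / (k : ℝ)) ^ s) ((s : ℝ) / n) u l u := by ring
            have h9 : 0 ≤ (1 - ind (Dead b')) *
                eps ((1 / (k : ℝ)) ^ s) ((s : ℝ) / n) u (l + 1) v :=
              mul_nonneg (by linarith [ind_le_one (Dead b')]) (hepsn _ _)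
            linarith
        refine (avg_mono hpt).trans ?_
        rw [avg_add, avg_const, avg_mul_const, avg_sub, avg_const]
        have hbox : (1 / (k : ℝ)) ^ s ≤ avg (fun b' : Om k n => ind (Dead b')) := by
          have h1 := avg_box (C := Fin k ⊕ Fin n) (T := fun c => Fin (Sz k n c)) F
            (fun c => match c with
            | Sum.inl _ => Finset.univ
            | Sum.inr _ => {α})
          have h2 : (fun ω : Om k n => ind (∀ c ∈ F, ω c ∈ (match c with
            | Sum.inl _ => Finset.univ
            | Sum.inr _ => {α} : Finset (Fin (Sz k n c))))) = fun ω => ind (Dead ω) := rfl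
          rw [h2] at h1
          rw [h1]
          have h3 : ∀ c ∈ F, (((match c with
            | Sum.inl _ => Finset.univ
            | Sum.inr _ => {α} : Finset (Fin (Sz k n c))).card : ℝ) /
              (Fintype.card (Fin (Sz k n c)) : ℝ)) = 1 / k := by
            intro c hc
            simp only [hF, rowsOf, Finset.mem_filter, Finset.mem_image] at hc
            obtain ⟨⟨e, _, rfl⟩, _⟩ := hc
            simp
          rw [Finset.prod_congr rfl h3, Finset.prod_const]
          apply pow_le_pow_of_le_one (by positivity) (by rw [div_le_one hk0]; exact hk1)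
          exact (Finset.card_filter_le _ _).trans (Finset.card_image_le.trans hKs)
        simp only [eps]
        have h11 : (1 - avg (fun b' : Om k n => ind (Dead b'))) *
            eps ((1 / (k : ℝ)) ^ s) ((s : ℝ) / n) u (l + 1) v ≤
            (1 - (1 / (k : ℝ)) ^ s) * eps ((1 / (k : ℝ)) ^ s) ((s : ℝ) / n) u (l + 1) v :=
          mul_le_mul_of_nonneg_right (by linarith) (hepsn _ _)
        linarith

/-- **Positive lemma.** -/
theorem pos_lemma (𝒦 : Set (Finset (Fin n × Fin n))) {s r u : ℕ} (hs : ∀ K ∈ 𝒦, K.card ≤ s)
    (hr : s * u * k ≤ r) (hq : (s : ℝ) * (k : ℝ) ^ s / n ≤ 1) :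
    avg (fun ω : Om k n => ind (BadPos r 𝒦 (xs ω))) ≤
      ((s : ℝ) * (k : ℝ) ^ s / n) ^ k + k * (1 - (1 / (k : ℝ)) ^ s) ^ u := by
  have hk0 : (0 : ℝ) < k := by exact_mod_cast NeZero.pos k
  have hk1 : (1 : ℝ) ≤ k := by exact_mod_cast NeZero.pos k
  have hkN : 0 < k := NeZero.pos k
  obtain ⟨a⟩ : Nonempty (Om k n) := inferInstance
  have hcols : cols (∅ : Set (Fin k ⊕ Fin n)) = 0 := by simp [cols]
  have hrows : rows (∅ : Set (Fin k ⊕ Fin n)) = 0 := by simp [rows]
  have h1 := pos_main (k := k) 𝒦 (s := s) (r := r) (u := u) hs k u ∅ a (by rw [hcols]; omega)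
    (Or.inr (by
      rw [hrows]
      have : s * u + s * u * (k - 1) = s * u * k := by
        obtain ⟨k', hk'⟩ := Nat.exists_eq_succ_of_ne_zero hkN.ne'
        rw [hk']
        simp only [Nat.succ_eq_add_one, Nat.add_sub_cancel]
        ring
      omega))
  have h2 : ∀ b : Om k n, mix (∅ : Set (Fin k ⊕ Fin n)) a b = b := by
    intro b
    funext c
    exact mix_not_mem (Set.notMem_empty c)
  simp only [h2] at h1
  refine h1.trans ?_
  have hδ0 : 0 < (1 / (k : ℝ)) ^ s := by positivity
  have hδ1 : (1 / (k : ℝ)) ^ s ≤ 1 :=
    pow_le_one₀ (by positivity) (by rw [div_le_one hk0]; exact hk1)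
  have h3 : (s : ℝ) / n / (1 / (k : ℝ)) ^ s = (s : ℝ) * (k : ℝ) ^ s / n := by
    rw [one_div_pow]
    field_simp
  have h4 := eps_le hδ0 hδ1 (by positivity : (0 : ℝ) ≤ (s : ℝ) / n) (by rw [h3]; exact hq) u k
  rw [h3] at h4
  exact h4

end

end Pool.Agent.H68MN
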