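import Pool.Agent.H68MN.Approx
import Pool.Agent.H68MN.PosMain

set_option linter.unusedSectionVars false

/-! The reduction fails for suitable parameters. -/

namespace Pool.Agent.H68MN

open Finset Classical
open Pool.Agent.H592R2

noncomputable section

theorem core {k m n b S d r s u Λ M : ℕ} [NeZero k] [NeZero n] [NeZero b]
    (C : Circuit (Fin n × Fin n) S) (o : Fin S)
    (hs1 : 1 ≤ s) (hΛ : 1 ≤ Λ) (hr : s * u * k ≤ r) (hq : (s : ℝ) * (k : ℝ) ^ s / n ≤ 1)
    (hmn : m ≤ n)
    (hC : ∀ i N w out, C i = .query N w out →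
      (2 * (N + 1) ^ 2 + 1) ^ d ≤ M ∧ (2 * (w + 1) ^ 2 + 1) ^ d ≤ Λ)
    (hpos : ((S : ℝ) + S * M) *
      (((s : ℝ) * (k : ℝ) ^ s / n) ^ k + k * (1 - (1 / (k : ℝ)) ^ s) ^ u) < 1)
    (hneg : (S : ℝ) * (((Λ * r : ℕ) : ℝ) / b) ^ s + (r : ℝ) / b +
      (n : ℝ) ^ m * (1 - (1 / (b : ℝ)) ^ m) ^ n < 1)
    (h1 : ∀ x : Fin n × Fin n → Bool, HittingSet k x → C.eval d x o = true)
    (h2 : ∀ x : Fin n × Fin n → Bool, C.eval d x o = true → HittingSet m x) : False := by
  have hb1 : (1 : ℝ) ≤ b := by exact_mod_cast NeZero.pos b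
  have hb0 : (0 : ℝ) < b := by linarith
  have hrr : r ≤ Λ * r := Nat.le_mul_of_pos_left r hΛ
  set η : ℝ := ((s : ℝ) * (k : ℝ) ^ s / n) ^ k + k * (1 - (1 / (k : ℝ)) ^ s) ^ u with hη
  have hk0 : (0 : ℝ) < k := by exact_mod_cast NeZero.pos k
  have hk1 : (1 : ℝ) ≤ k := by exact_mod_cast NeZero.pos k
  have hδ1 : (1 / (k : ℝ)) ^ s ≤ 1 :=
    pow_le_one₀ (by positivity) (by rw [div_le_one hk0]; exact hk1)
  have hη0 : 0 ≤ η := by
    rw [hη]
    have : 0 ≤ (1 - (1 / (k : ℝ)) ^ s) ^ u := pow_nonneg (by linarith) _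
    positivity
  -- a good sparse matrix
  obtain ⟨ω, hω⟩ : ∃ ω : Om k n, ¬ ((∃ i ∈ (Finset.univ : Finset (Fin S)),
      BadPos r (apx d C r (Λ * r) s i) (xs ω)) ∨
      (∃ i ∈ (Finset.univ : Finset (Fin S)), PosBad d C r (Λ * r) s (xs ω) i)) := by
    apply exists_not_of_avg_lt
    refine lt_of_le_of_lt (avg_mono fun ω => (ind_or_le _ _).trans
      (add_le_add (ind_exists_le _ _) (ind_exists_le _ _))) ?_
    rw [avg_add, avg_sum, avg_sum]
    have h1 : ∑ i ∈ (Finset.univ : Finset (Fin S)),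
        avg (fun ω : Om k n => ind (BadPos r (apx d C r (Λ * r) s i) (xs ω))) ≤ S * η := by
      refine (Finset.sum_le_sum fun i _ => pos_lemma _ (apx_card d C hs1 i) hr hq).trans_eq ?_
      rw [Finset.sum_const, nsmul_eq_mul, Finset.card_univ, Fintype.card_fin]
    have h2 : ∑ i ∈ (Finset.univ : Finset (Fin S)),
        avg (fun ω : Om k n => ind (PosBad d C r (Λ * r) s (xs ω) i)) ≤ S * (M * η) := by
      have h3 : ∀ i ∈ (Finset.univ : Finset (Fin S)),
          avg (fun ω : Om k n => ind (PosBad d C r (Λ * r) s (xs ω) i)) ≤ M * η := by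
        intro i _
        unfold PosBad
        split
        · next N w out heq =>
          refine (avg_mono fun ω => ind_exists_le _ _).trans ?_
          rw [avg_sum]
          refine (Finset.sum_le_sum fun J _ => pos_lemma (famK d
            (fun cl => apx d C r (Λ * r) s ⟨out cl, (out cl).2.trans i.2⟩) J)
            (s := s) ?_ hr hq).trans ?_
          · rintro K ⟨cl, _, hK⟩
            exact apx_card d C hs1 _ K hK
          · rw [Finset.sum_const, nsmul_eq_mul, Finset.card_univ, card_codes]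
            exact mul_le_mul_of_nonneg_right (by exact_mod_cast (hC i N w out heq).1) hη0
        · have : (fun ω : Om k n => ind False) = fun _ => (0 : ℝ) := by
            funext ω
            exact ind_false (fun h => h)
          rw [this, avg_const]
          positivity
      refine (Finset.sum_le_sum h3).trans_eq ?_
      rw [Finset.sum_const, nsmul_eq_mul, Finset.card_univ, Fintype.card_fin]
    have h3 : (S : ℝ) * η + S * (M * η) < 1 := by
      have : ((S : ℝ) + S * M) * η = S * η + S * (M * η) := by ring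
      rw [← this]; exact hpos
    linarith
  push Not at hω
  obtain ⟨hω1, hω2⟩ := hω
  have hω1' : ∀ i, ¬ BadPos r (apx d C r (Λ * r) s i) (xs ω) :=
    fun i => hω1 i (Finset.mem_univ _)
  -- it has a hitting set
  have hhs : HittingSet k (inp (xs ω)) := by
    refine ⟨(Finset.univ : Finset (Fin k)).image (fun a => (show Fin n from ω (Sum.inl a))),
      Finset.card_image_le.trans (by simp), fun i => ⟨tcol ω i,
      Finset.mem_image.mpr ⟨_, Finset.mem_univ _, rfl⟩, ?_⟩⟩
    simp [inp, xs]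
  have hsat : Sat (apx d C r (Λ * r) s o) (xs ω) :=
    apx_pos d C le_rfl (fun i N w out heq => (hC i N w out heq).2) hω1'
      (fun i => hω2 i (Finset.mem_univ _)) o (h1 _ hhs)
  obtain ⟨Z, _, hZcard, hZsat⟩ : ∃ z ⊆ xs ω, z.card ≤ r ∧ Sat (apx d C r (Λ * r) s o) z := by
    by_contra hcon
    exact hω1' o ⟨hsat, hcon⟩
  -- a good dense matrix that contains the certificate
  obtain ⟨ω', hω'⟩ : ∃ ω' : Fin n × Fin n → Fin b, ¬ ((∃ i ∈ (Finset.univ : Finset (Fin S)),
      NegBad d C r (Λ * r) s (ys ω') i) ∨ ((¬ Z ⊆ ys ω') ∨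
      (∃ T ∈ Finset.powersetCard m (Finset.univ : Finset (Fin n)),
        ∀ i, ∃ j ∈ T, ω' (i, j) ≠ 0))) := by
    apply exists_not_of_avg_lt
    refine lt_of_le_of_lt (avg_mono fun ω => (ind_or_le _ _).trans
      (add_le_add le_rfl ((ind_or_le _ _).trans
        (add_le_add le_rfl (ind_exists_le _ _))))) ?_
    rw [avg_add, avg_add, avg_sum]
    have h1 := avg_negBad (b := b) d C (s := s) hrr
    have h2 := avg_missing (b := b) Z
    have h3 : ∑ T ∈ Finset.powersetCard m (Finset.univ : Finset (Fin n)),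
        avg (fun ω : Fin n × Fin n → Fin b => ind (∀ i, ∃ j ∈ T, ω (i, j) ≠ 0)) ≤
        (n : ℝ) ^ m * (1 - (1 / (b : ℝ)) ^ m) ^ n := by
      have h4 : ∀ T ∈ Finset.powersetCard m (Finset.univ : Finset (Fin n)),
          avg (fun ω : Fin n × Fin n → Fin b => ind (∀ i, ∃ j ∈ T, ω (i, j) ≠ 0)) =
          (1 - (1 / (b : ℝ)) ^ m) ^ n := by
        intro T hT
        rw [avg_cover, (Finset.mem_powersetCard.mp hT).2]
      rw [Finset.sum_congr rfl h4, Finset.sum_const, nsmul_eq_mul, Finset.card_powersetCard,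
        Finset.card_univ, Fintype.card_fin]
      have h5 : ((n.choose m : ℕ) : ℝ) ≤ (n : ℝ) ^ m := by exact_mod_cast Nat.choose_le_pow n m
      refine mul_le_mul_of_nonneg_right h5 (pow_nonneg ?_ _)
      have : (1 / (b : ℝ)) ^ m ≤ 1 :=
        pow_le_one₀ (by positivity) (by rw [div_le_one hb0]; exact hb1)
      linarith
    have h6 : (Z.card : ℝ) / b ≤ (r : ℝ) / b :=
      div_le_div_of_nonneg_right (by exact_mod_cast hZcard) hb0.le
    linarith
  push Not at hω'
  obtain ⟨hy1, hy2, hy3⟩ := hω'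
  -- it has a hitting set as well
  have hhs' : HittingSet m (inp (ys ω')) :=
    h2 _ (apx_neg d C (fun i => hy1 i (Finset.mem_univ _)) o (hZsat.mono hy2))
  obtain ⟨T, hT1, hT2⟩ := hhs'
  obtain ⟨T', hTT', hT'⟩ := Finset.exists_superset_card_eq (α := Fin n) hT1 (by simpa using hmn)
  obtain ⟨i, hi⟩ := hy3 T' (Finset.mem_powersetCard.mpr ⟨Finset.subset_univ _, hT'⟩)
  obtain ⟨j, hj1, hj2⟩ := hT2 i
  have h7 := hi j (hTT' hj1)
  simp only [inp, decide_eq_true_eq, mem_ys] at hj2
  exact hj2 h7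

end

end Pool.Agent.H68MN
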