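import Mathlib

/-! Monotone Boolean circuits with oracle gates for weighted satisfiability of formulas with
bounded clause size. -/

namespace Pool.Agent.H68MN

open Finset Classical

noncomputable section

/-- the gate number `i` of a monotone oracle circuit with input bits indexed by `E`: an input bit,
a constant, the conjunction or disjunction of the values of two gates with smaller numbers, or an
oracle query about weighted satisfiability for the weight `w` in `N` variables, where `out` gives
for each clause the number of a smaller gate, which tells whether the clause is left out -/
inductive Gate (E : Type) (i : ℕ) : Type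
  | input (e : E) : Gate E i
  | const (v : Bool) : Gate E i
  | and (a b : Fin i) : Gate E i
  | or (a b : Fin i) : Gate E i
  | query (N w : ℕ) (out : Finset (Fin N × Bool) → Fin i) : Gate E i

/-- a monotone oracle circuit with `S` gates over the input bits `E` -/
def Circuit (E : Type) (S : ℕ) : Type := ∀ i : Fin S, Gate E i

/-- weighted satisfiability: some assignment of the variables `X_0, ..., X_(N-1)` with exactly `w`
true variables (those in `T`) satisfies all clauses in `F`; a clause is a set of literals, the literal
`(v, true)` is the variable `X_v` and `(v, false)` is its negation -/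
def WSat {N : ℕ} (w : ℕ) (F : Set (Finset (Fin N × Bool))) : Prop :=
  ∃ T : Finset (Fin N), T.card = w ∧ ∀ cl ∈ F, ∃ l ∈ cl, (l.1 ∈ T ↔ l.2 = true)

/-- the value of the gate number `i` of the circuit on the input `x`; an oracle gate `query N w out`
is true iff the formula that consists of the clauses `cl` with at most `d` literals for which the
gate `out cl` is false has a satisfying assignment of weight `w` -/
def Circuit.eval {E : Type} {S : ℕ} (d : ℕ) (C : Circuit E S) (x : E → Bool) (i : Fin S) : Bool :=
  match C i with
  | .input e => x e
  | .const v => v
  | .and a b => eval d C x ⟨a, a.2.trans i.2⟩ && eval d C x ⟨b, b.2.trans i.2⟩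
  | .or a b => eval d C x ⟨a, a.2.trans i.2⟩ || eval d C x ⟨b, b.2.trans i.2⟩
  | .query _ w out =>
      decide (WSat w {cl | cl.card ≤ d ∧ eval d C x ⟨out cl, (out cl).2.trans i.2⟩ = false})
termination_by i.val
decreasing_by
  all_goals first
    | exact a.2
    | exact b.2
    | exact (out cl).2

/-- the zero-one matrix `x` has a hitting set of size at most `k`: some set of at most `k` columns
meets every row in a 1. In other words the CNF whose `i`-th clause consists of the variables `X_j`
with `x (i, j) = 1` has a satisfying assignment with at most `k` true variables (equivalently,
exactly `k` true variables, if `k ≤ n`). -/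
def HittingSet {n : ℕ} (k : ℕ) (x : Fin n × Fin n → Bool) : Prop :=
  ∃ T : Finset (Fin n), T.card ≤ k ∧ ∀ i, ∃ j ∈ T, x (i, j) = true

/-- There are fpt Turing reductions to `p-WSAT(Γ_{1,d})`, computed by monotone oracle circuits, that
distinguish matrices which have a hitting set of size at most `k` from those which do not have a
hitting set of size at most `h k`: for all `k` and `n` there is a monotone oracle circuit with at
most `f k * (n + 1) ^ c` gates, in which the oracle gates ask about formulas in at most
`f k * (n + 1) ^ c` variables and about weights at most `g k`, whose gate number `o` is true for the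
former matrices and false for the latter. -/
def MonotoneTuringReduction (h : ℕ → ℕ) (d : ℕ) : Prop :=
  ∃ (c : ℕ) (f g : ℕ → ℕ), ∀ k n : ℕ, ∃ (S : ℕ) (C : Circuit (Fin n × Fin n) S) (o : Fin S),
    S ≤ f k * (n + 1) ^ c ∧
    (∀ i N w out, C i = .query N w out → N ≤ f k * (n + 1) ^ c ∧ w ≤ g k) ∧
    ∀ x : Fin n × Fin n → Bool,
      (HittingSet k x → C.eval d x o = true) ∧ (C.eval d x o = true → HittingSet (h k) x)

end

end Pool.Agent.H68MN
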