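import Pool.Agent.H68MN.Core

set_option linter.unusedSectionVars false

/-! Choice of the parameters; the theorem. -/

namespace Pool.Agent.H68MN

open Finset Classical Filter Topology
open Pool.Agent.H592R2

noncomputable section

lemma ev_div (A ε : ℝ) (hε : 0 < ε) : ∀ᶠ w : ℕ in atTop, A / (w : ℝ) < ε := by
  have h : Tendsto (fun w : ℕ => A / (w : ℝ)) atTop (𝓝 0) :=
    tendsto_const_div_atTop_nhds_zero_nat A
  exact h.eventually (gt_mem_nhds hε)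

lemma ev_pow_mul (A ρ ε : ℝ) (m : ℕ) (h0 : 0 ≤ ρ) (h1 : ρ < 1) (hε : 0 < ε) :
    ∀ᶠ w : ℕ in atTop, A * ((w : ℝ) ^ m * ρ ^ w) < ε := by
  have h := (tendsto_pow_const_mul_const_pow_of_lt_one m h0 h1).const_mul A
  rw [mul_zero] at h
  exact h.eventually (gt_mem_nhds hε)

lemma ev_exp (ε : ℝ) (m : ℕ) (hε : 0 < ε) :
    ∀ᶠ w : ℕ in atTop, (w : ℝ) ^ m * Real.exp (-(w : ℝ)) < ε := by
  have h := (Real.tendsto_pow_mul_exp_neg_atTop_nhds_zero m).comp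
    (tendsto_natCast_atTop_atTop (R := ℝ))
  exact h.eventually (gt_mem_nhds hε)

/-- few clauses of the dense matrix are all covered -/
lemma dense_bound {w p m b n : ℕ} (hw : 1 ≤ w) (hp : 1 ≤ p) (hmp : m ≤ p) (hb : b = w ^ 4)
    (hn : n = w ^ (8 * p)) (hexp : (w : ℝ) ^ (8 * p * p) * Real.exp (-(w : ℝ)) < 1 / 4) :
    (n : ℝ) ^ m * (1 - (1 / (b : ℝ)) ^ m) ^ n < 1 / 4 := by
  have hwr : (1 : ℝ) ≤ w := by exact_mod_cast hw
  have hb1 : 1 ≤ b := by rw [hb]; exact Nat.one_le_pow _ _ hw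
  have hbr : (b : ℝ) = (w : ℝ) ^ 4 := by rw [hb]; push_cast; rfl
  have hb0 : (0 : ℝ) < b := by rw [hbr]; positivity
  have hn1 : 1 ≤ n := by rw [hn]; exact Nat.one_le_pow _ _ hw
  have hnr : (1 : ℝ) ≤ n := by exact_mod_cast hn1
  have h13 : (1 / (b : ℝ)) ^ m ≤ 1 := by
    apply pow_le_one₀ (by positivity)
    rw [div_le_one hb0]
    exact_mod_cast hb1
  have h14 : (1 - (1 / (b : ℝ)) ^ m) ^ n ≤ Real.exp (-(w : ℝ)) := by
    have h15 : 1 - (1 / (b : ℝ)) ^ m ≤ Real.exp (-((1 / (b : ℝ)) ^ m)) := by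
      have := Real.add_one_le_exp (-((1 / (b : ℝ)) ^ m))
      linarith
    calc (1 - (1 / (b : ℝ)) ^ m) ^ n ≤ Real.exp (-((1 / (b : ℝ)) ^ m)) ^ n :=
          pow_le_pow_left₀ (by linarith) h15 n
      _ = Real.exp (-((n : ℝ) * (1 / (b : ℝ)) ^ m)) := by
          rw [← Real.exp_nat_mul]
          congr 1
          ring
      _ ≤ Real.exp (-(w : ℝ)) := by
          apply Real.exp_le_exp.mpr
          have h16 : (n : ℝ) * (1 / (b : ℝ)) ^ p = (w : ℝ) ^ (4 * p) := by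
            rw [hn, hbr]
            push_cast
            rw [one_div_pow, ← pow_mul]
            have h17 : 8 * p = 4 * p + 4 * p := by ring
            rw [h17, pow_add]
            field_simp
          have h16' : (1 / (b : ℝ)) ^ p ≤ (1 / (b : ℝ)) ^ m :=
            pow_le_pow_of_le_one (by positivity) (by
              rw [div_le_one hb0]; exact_mod_cast hb1) hmp
          have h16'' := mul_le_mul_of_nonneg_left h16' (by linarith : (0 : ℝ) ≤ n)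
          have h18 : (w : ℝ) ^ 1 ≤ (w : ℝ) ^ (4 * p) := pow_le_pow_right₀ hwr (by omega)
          rw [pow_one] at h18
          linarith
  have h19 : (n : ℝ) ^ m ≤ (w : ℝ) ^ (8 * p * p) := by
    calc (n : ℝ) ^ m ≤ (n : ℝ) ^ p := pow_le_pow_right₀ hnr hmp
      _ = (w : ℝ) ^ (8 * p * p) := by
          rw [hn]
          push_cast
          rw [← pow_mul]
  calc (n : ℝ) ^ m * (1 - (1 / (b : ℝ)) ^ m) ^ n ≤
        (w : ℝ) ^ (8 * p * p) * Real.exp (-(w : ℝ)) :=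
        mul_le_mul h19 h14 (pow_nonneg (by linarith) _) (by positivity)
    _ < 1 / 4 := hexp

/-- there are no reductions, not even for large `n` -/
theorem no_mono_ge (h : ℕ → ℕ) (d : ℕ) : ¬ ∃ (c : ℕ) (f g : ℕ → ℕ), ∀ k n : ℕ, k ≤ n →
    ∃ (S : ℕ) (C : Circuit (Fin n × Fin n) S) (o : Fin S),
    S ≤ f k * (n + 1) ^ c ∧
    (∀ i N w out, C i = .query N w out → N ≤ f k * (n + 1) ^ c ∧ w ≤ g k) ∧
    ∀ x : Fin n × Fin n → Bool,
      (HittingSet k x → C.eval d x o = true) ∧ (C.eval d x o = true → HittingSet (h k) x) := by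
  rintro ⟨c, f, g, hR⟩
  obtain ⟨e, he⟩ : ∃ e, e = c + 2 * c * d := ⟨_, rfl⟩
  obtain ⟨k, hk⟩ : ∃ k, k = e + 1 := ⟨_, rfl⟩
  obtain ⟨m, hm⟩ : ∃ m, m = h k := ⟨_, rfl⟩
  obtain ⟨p, hp⟩ : ∃ p, p = m + 1 := ⟨_, rfl⟩
  obtain ⟨s, hs⟩ : ∃ s, s = 4 * p * c + 1 := ⟨_, rfl⟩
  obtain ⟨A, hA⟩ : ∃ A : ℝ, A = (f k : ℝ) * 2 ^ c := ⟨_, rfl⟩
  obtain ⟨B, hB⟩ : ∃ B : ℝ, B = (3 * (A + 1) ^ 2) ^ d := ⟨_, rfl⟩
  obtain ⟨κ, hκ⟩ : ∃ κ : ℝ, κ = (s : ℝ) * (k : ℝ) ^ s := ⟨_, rfl⟩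
  obtain ⟨Λ, hΛ⟩ : ∃ Λ : ℕ, Λ = (2 * (g k + 1) ^ 2 + 1) ^ d := ⟨_, rfl⟩
  obtain ⟨ρ, hρ⟩ : ∃ ρ : ℝ, ρ = 1 - (1 / (k : ℝ)) ^ s := ⟨_, rfl⟩
  have hk1 : 1 ≤ k := by omega
  have hk0 : (0 : ℝ) < k := by exact_mod_cast hk1
  have hk1r : (1 : ℝ) ≤ k := by exact_mod_cast hk1
  have hs1 : 1 ≤ s := by omega
  have hA0 : 0 ≤ A := by rw [hA]; positivity
  have hB0 : 0 ≤ B := by rw [hB]; positivity
  have hκ0 : 0 ≤ κ := by rw [hκ]; positivity
  have hδ1 : (1 / (k : ℝ)) ^ s ≤ 1 :=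
    pow_le_one₀ (by positivity) (by rw [div_le_one hk0]; exact hk1r)
  have hδ0 : 0 < (1 / (k : ℝ)) ^ s := by positivity
  have hρ0 : 0 ≤ ρ := by rw [hρ]; linarith
  have hρ1 : ρ < 1 := by rw [hρ]; linarith
  have hΛ1 : 1 ≤ Λ := by rw [hΛ]; exact Nat.one_le_pow _ _ (by omega)
  obtain ⟨w, hw1, hw2, hw3, hw4, hw5, hw6, hw7, hw8⟩ :=
    ((ev_div (A * (1 + B) * κ ^ k) (1 / 2) (by norm_num)).and
    ((ev_pow_mul (A * (1 + B) * k) ρ (1 / 2) (8 * p * e) hρ0 hρ1 (by norm_num)).and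
    ((ev_div (A * (Λ : ℝ) ^ s) (1 / 4) (by norm_num)).and
    ((ev_div 1 (1 / 4) (by norm_num)).and
    ((ev_exp (1 / 4) (8 * p * p) (by norm_num)).and
    ((eventually_ge_atTop (s * k)).and
    ((eventually_ge_atTop ⌈κ⌉₊).and (eventually_ge_atTop (m + 1))))))))).exists
  have hw1' : 1 ≤ w := by omega
  have hwr : (1 : ℝ) ≤ w := by exact_mod_cast hw1'
  have hw0 : (0 : ℝ) < w := by linarith
  obtain ⟨b, hb⟩ : ∃ b, b = w ^ 4 := ⟨_, rfl⟩
  obtain ⟨n, hn⟩ : ∃ n, n = w ^ (8 * p) := ⟨_, rfl⟩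
  have hn1 : 1 ≤ n := by rw [hn]; exact Nat.one_le_pow _ _ hw1'
  have hb1 : 1 ≤ b := by rw [hb]; exact Nat.one_le_pow _ _ hw1'
  have hwn : w ≤ n := by
    rw [hn]
    calc w = w ^ 1 := (pow_one w).symm
      _ ≤ w ^ (8 * p) := Nat.pow_le_pow_right hw1' (by omega)
  have hnr : (1 : ℝ) ≤ n := by exact_mod_cast hn1
  have hn0 : (0 : ℝ) < n := by linarith
  have hwnr : (w : ℝ) ≤ n := by exact_mod_cast hwn
  have : NeZero k := ⟨by omega⟩
  have : NeZero n := ⟨by omega⟩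
  have : NeZero b := ⟨by omega⟩
  have hkn : k ≤ n := by
    have : 1 * k ≤ s * k := Nat.mul_le_mul_right _ hs1
    omega
  obtain ⟨S, C, o, hS, hC, hred⟩ := hR k n hkn
  obtain ⟨N0, hN0⟩ : ∃ N0, N0 = f k * (n + 1) ^ c := ⟨_, rfl⟩
  obtain ⟨M, hM⟩ : ∃ M, M = (2 * (N0 + 1) ^ 2 + 1) ^ d := ⟨_, rfl⟩
  have hpow : ((n : ℝ) + 1) ^ c ≤ 2 ^ c * (n : ℝ) ^ c := by
    rw [← mul_pow]
    exact pow_le_pow_left₀ (by positivity) (by linarith) c
  have hNr : (N0 : ℝ) ≤ A * (n : ℝ) ^ c := by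
    rw [hN0]
    push_cast
    rw [hA, mul_assoc]
    exact mul_le_mul_of_nonneg_left hpow (Nat.cast_nonneg _)
  have hSr : (S : ℝ) ≤ A * (n : ℝ) ^ c :=
    le_trans (by exact_mod_cast (hN0 ▸ hS : S ≤ N0)) hNr
  have hnc1 : (1 : ℝ) ≤ (n : ℝ) ^ c := one_le_pow₀ hnr
  have hN1 : (N0 : ℝ) + 1 ≤ (A + 1) * (n : ℝ) ^ c := by nlinarith
  have hcodes : (M : ℝ) ≤ B * (n : ℝ) ^ (2 * c * d) := by
    rw [hM]
    push_cast
    have h1 : ((N0 : ℝ) + 1) ^ 2 ≤ ((A + 1) * (n : ℝ) ^ c) ^ 2 :=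
      pow_le_pow_left₀ (by positivity) hN1 2
    have h2 : (1 : ℝ) ≤ ((A + 1) * (n : ℝ) ^ c) ^ 2 := by
      apply one_le_pow₀
      nlinarith
    calc (2 * ((N0 : ℝ) + 1) ^ 2 + 1) ^ d ≤ (3 * ((A + 1) * (n : ℝ) ^ c) ^ 2) ^ d :=
          pow_le_pow_left₀ (by positivity) (by linarith) d
      _ = (3 * (A + 1) ^ 2) ^ d * (n : ℝ) ^ (2 * c * d) := by
          rw [mul_pow (A + 1), ← mul_assoc, mul_pow]
          congr 1
          rw [← pow_mul, ← pow_mul]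
          congr 1
          ring
      _ = B * (n : ℝ) ^ (2 * c * d) := by rw [hB]
  have htot : (S : ℝ) + S * M ≤ A * (1 + B) * (n : ℝ) ^ e := by
    have h0 : (1 : ℝ) ≤ (n : ℝ) ^ (2 * c * d) := one_le_pow₀ hnr
    have h1 : 1 + (M : ℝ) ≤ (1 + B) * (n : ℝ) ^ (2 * c * d) := by nlinarith
    have h2 : (S : ℝ) * (1 + M) ≤ (A * (n : ℝ) ^ c) * ((1 + B) * (n : ℝ) ^ (2 * c * d)) :=
      mul_le_mul hSr h1 (by positivity) (by positivity)
    have h3 : (A * (n : ℝ) ^ c) * ((1 + B) * (n : ℝ) ^ (2 * c * d)) =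
        A * (1 + B) * (n : ℝ) ^ e := by
      rw [he, pow_add]; ring
    linarith
  refine core C o (s := s) (r := w ^ 2) (u := w) (b := b) (d := d) (Λ := Λ) (M := M) (m := m)
    (k := k) hs1 hΛ1 ?_ ?_ ?_ ?_ ?_ ?_ (fun x => (hred x).1) (fun x hx => hm ▸ (hred x).2 hx)
  · calc s * w * k = (s * k) * w := by ring
      _ ≤ w * w := Nat.mul_le_mul_right _ hw6
      _ = w ^ 2 := by ring
  · rw [← hκ, div_le_one hn0]
    calc κ ≤ (⌈κ⌉₊ : ℝ) := Nat.le_ceil _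
      _ ≤ w := by exact_mod_cast hw7
      _ ≤ n := hwnr
  · omega
  · intro i N w' out heq
    obtain ⟨h1, h2⟩ := hC i N w' out heq
    constructor
    · rw [hM]
      apply Nat.pow_le_pow_left
      have h3 := Nat.pow_le_pow_left (Nat.add_le_add_right (hN0 ▸ h1 : N ≤ N0) 1) 2
      exact Nat.add_le_add_right (Nat.mul_le_mul_left 2 h3) 1
    · rw [hΛ]
      apply Nat.pow_le_pow_left
      have h3 := Nat.pow_le_pow_left (Nat.add_le_add_right h2 1) 2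
      exact Nat.add_le_add_right (Nat.mul_le_mul_left 2 h3) 1
  · -- sparse matrices
    rw [← hκ, ← hρ]
    have h0 : 0 ≤ (κ / n) ^ k + k * ρ ^ w := by positivity
    refine lt_of_le_of_lt (mul_le_mul_of_nonneg_right htot h0) ?_
    have h1 : A * (1 + B) * (n : ℝ) ^ e * ((κ / n) ^ k + k * ρ ^ w) =
        A * (1 + B) * κ ^ k / n + A * (1 + B) * k * ((n : ℝ) ^ e * ρ ^ w) := by
      rw [div_pow, mul_add]
      congr 1
      · rw [hk, pow_succ (n : ℝ) e]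
        field_simp
      · ring
    rw [h1]
    have h2 : A * (1 + B) * κ ^ k / n ≤ A * (1 + B) * κ ^ k / w :=
      div_le_div_of_nonneg_left (by positivity) hw0 hwnr
    have h3 : (n : ℝ) ^ e = (w : ℝ) ^ (8 * p * e) := by
      rw [hn]
      push_cast
      rw [← pow_mul]
    rw [h3]
    linarith
  · -- dense matrices
    have hbr : (b : ℝ) = (w : ℝ) ^ 4 := by rw [hb]; push_cast; rfl
    have hb0 : (0 : ℝ) < b := by rw [hbr]; positivity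
    have hw2' : (w : ℝ) ≤ (w : ℝ) ^ 2 := by nlinarith
    have h1 : (S : ℝ) * (((Λ * w ^ 2 : ℕ) : ℝ) / b) ^ s < 1 / 4 := by
      have h2 : ((Λ * w ^ 2 : ℕ) : ℝ) / b = Λ / (w : ℝ) ^ 2 := by
        rw [hbr]
        push_cast
        field_simp
      rw [h2]
      have h3 : (S : ℝ) * (Λ / (w : ℝ) ^ 2) ^ s ≤ A * (n : ℝ) ^ c * (Λ / (w : ℝ) ^ 2) ^ s :=
        mul_le_mul_of_nonneg_right hSr (by positivity)
      have h4 : A * (n : ℝ) ^ c * (Λ / (w : ℝ) ^ 2) ^ s = A * (Λ : ℝ) ^ s / (w : ℝ) ^ 2 := by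
        rw [hn]
        push_cast
        rw [← pow_mul, div_pow, ← pow_mul]
        have h5 : 2 * s = 8 * p * c + 2 := by rw [hs]; ring
        rw [h5, pow_add]
        field_simp
      have h6 : A * (Λ : ℝ) ^ s / (w : ℝ) ^ 2 ≤ A * (Λ : ℝ) ^ s / w :=
        div_le_div_of_nonneg_left (by positivity) hw0 hw2'
      linarith
    have h7 : ((w ^ 2 : ℕ) : ℝ) / b < 1 / 4 := by
      have h10 : ((w ^ 2 : ℕ) : ℝ) / b = 1 / (w : ℝ) ^ 2 := by
        rw [hbr]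
        push_cast
        field_simp
      have h11 : 1 / (w : ℝ) ^ 2 ≤ 1 / w := div_le_div_of_nonneg_left (by norm_num) hw0 hw2'
      linarith
    have h12 := dense_bound (m := m) hw1' (by omega : 1 ≤ p) (by omega) hb hn hw5
    linarith

theorem no_mono (h : ℕ → ℕ) (d : ℕ) : ¬ MonotoneTuringReduction h d := by
  rintro ⟨c, f, g, hR⟩
  exact no_mono_ge h d ⟨c, f, g, fun k n _ => hR k n⟩

end

end Pool.Agent.H68MN
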