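import Pool.Agent.H592R2.Prob

set_option linter.unusedSectionVars false

/-! Random matrices with one 1 in every row and few nonzero columns: satisfied narrow CNFs have
short certificates. -/

namespace Pool.Agent.H68MN

open Finset Classical
open Pool.Agent.H592R2

noncomputable section

/-- all members of `𝒦` meet `z` -/
def Sat {E : Type} (𝒦 : Set (Finset E)) (z : Finset E) : Prop := ∀ K ∈ 𝒦, ∃ e ∈ K, e ∈ z

lemma Sat.mono {E : Type} {𝒦 : Set (Finset E)} {z z' : Finset E} (h : Sat 𝒦 z) (hz : z ⊆ z') :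
    Sat 𝒦 z' := fun K hK => by
  obtain ⟨e, h1, h2⟩ := h K hK
  exact ⟨e, h1, hz h2⟩

/-- `x` satisfies `𝒦` but has no certificate of size at most `r` -/
def BadPos {E : Type} (r : ℕ) (𝒦 : Set (Finset E)) (x : Finset E) : Prop :=
  Sat 𝒦 x ∧ ¬ ∃ z ⊆ x, z.card ≤ r ∧ Sat 𝒦 z

variable {k n : ℕ}

/-- sizes of the coordinate spaces -/
abbrev Sz (k n : ℕ) : Fin k ⊕ Fin n → ℕ
  | Sum.inl _ => n
  | Sum.inr _ => k

/-- sample space: `k` columns, and for each row the index of one of them -/
abbrev Om (k n : ℕ) : Type := ∀ c : Fin k ⊕ Fin n, Fin (Sz k n c)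

instance instNeSz [NeZero k] [NeZero n] : ∀ c : Fin k ⊕ Fin n, Nonempty (Fin (Sz k n c))
  | Sum.inl _ => ⟨⟨0, NeZero.pos n⟩⟩
  | Sum.inr _ => ⟨⟨0, NeZero.pos k⟩⟩

/-- the column of the 1 in the row `i` -/
def tcol (ω : Om k n) (i : Fin n) : Fin n := ω (Sum.inl (ω (Sum.inr i)))

/-- the set of ones -/
def xs (ω : Om k n) : Finset (Fin n × Fin n) := Finset.univ.filter (fun e => tcol ω e.1 = e.2)

/-- the ones known from the coordinates in `R` -/
def zK (R : Set (Fin k ⊕ Fin n)) (ω : Om k n) : Finset (Fin n × Fin n) :=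
  Finset.univ.filter (fun e => Sum.inr e.1 ∈ R ∧ Sum.inl (ω (Sum.inr e.1)) ∈ R ∧ tcol ω e.1 = e.2)

/-- number of revealed rows -/
def rows (R : Set (Fin k ⊕ Fin n)) : ℕ := (Finset.univ.filter (fun i : Fin n => Sum.inr i ∈ R)).card

/-- number of revealed columns -/
def cols (R : Set (Fin k ⊕ Fin n)) : ℕ := (Finset.univ.filter (fun a : Fin k => Sum.inl a ∈ R)).card

lemma zK_card (R : Set (Fin k ⊕ Fin n)) (ω : Om k n) : (zK R ω).card ≤ rows R := by
  unfold zK rows
  refine Finset.card_le_card_of_injOn (fun e => e.1) ?_ ?_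
  · intro e he
    simp only [Finset.coe_filter, Finset.mem_univ, true_and, Set.mem_ofPred_eq] at he ⊢
    exact he.1
  · intro e he e' he' h
    simp only [Finset.coe_filter, Finset.mem_univ, true_and, Set.mem_ofPred_eq] at he he'
    refine Prod.ext h ?_
    have h' : e.1 = e'.1 := h
    rw [← he.2.2, ← he'.2.2, h']

lemma zK_sub [NeZero k] [NeZero n] (R : Set (Fin k ⊕ Fin n)) (a b : Om k n) :
    zK R a ⊆ xs (mix R a b) := by
  intro e he
  simp only [zK, xs, Finset.mem_filter, Finset.mem_univ, true_and] at he ⊢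
  obtain ⟨h1, h2, h3⟩ := he
  unfold tcol at h3 ⊢
  rw [mix_mem (a := a) (b := b) h1, mix_mem (a := a) (b := b) h2, h3]

/-- the error bound -/
def eps (δ q : ℝ) (u : ℕ) : ℕ → ℕ → ℝ
  | 0, _ => 1
  | _ + 1, 0 => 1
  | l + 1, v + 1 => (1 - δ) * eps δ q u (l + 1) v + q * eps δ q u l u

lemma eps_nonneg {δ q : ℝ} (h1 : δ ≤ 1) (hq : 0 ≤ q) (u : ℕ) :
    ∀ l v, 0 ≤ eps δ q u l v := by
  intro l
  induction l with
  | zero => intro v; simp [eps]
  | succ l ih =>
    intro v
    induction v with
    | zero => simp [eps]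
    | succ v ihv =>
      simp only [eps]
      exact add_nonneg (mul_nonneg (by linarith) ihv) (mul_nonneg hq (ih u))

lemma eps_le {δ q : ℝ} (h0 : 0 < δ) (h1 : δ ≤ 1) (hq : 0 ≤ q) (hq1 : q / δ ≤ 1) (u : ℕ) :
    ∀ l, eps δ q u l u ≤ (q / δ) ^ l + l * (1 - δ) ^ u := by
  have hstep : ∀ l v, eps δ q u (l + 1) v ≤ (1 - δ) ^ v + q / δ * eps δ q u l u := by
    intro l v
    have hE := eps_nonneg h1 hq u l u
    induction v with
    | zero =>
      simp only [eps, pow_zero]
      have : 0 ≤ q / δ * eps δ q u l u := mul_nonneg (div_nonneg hq h0.le) hE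
      linarith
    | succ v ihv =>
      simp only [eps]
      have h2 := mul_le_mul_of_nonneg_left ihv (by linarith : (0:ℝ) ≤ 1 - δ)
      have h3 : (1 - δ) * ((1 - δ) ^ v + q / δ * eps δ q u l u) + q * eps δ q u l u =
          (1 - δ) ^ (v + 1) + q / δ * eps δ q u l u := by
        field_simp
        ring
      linarith
  intro l
  induction l with
  | zero => simp [eps]
  | succ l ih =>
    refine (hstep l u).trans ?_
    have hqd : 0 ≤ q / δ := div_nonneg hq h0.le
    have h2 := mul_le_mul_of_nonneg_left ih hqd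
    have h3 : q / δ * ((l : ℝ) * (1 - δ) ^ u) ≤ 1 * ((l : ℝ) * (1 - δ) ^ u) :=
      mul_le_mul_of_nonneg_right hq1
        (mul_nonneg (Nat.cast_nonneg _) (pow_nonneg (by linarith) _))
    push_cast
    rw [pow_succ]
    nlinarith

/-- fixing one more coordinate -/
lemma avg_fix [NeZero k] [NeZero n] {R : Set (Fin k ⊕ Fin n)} {c : Fin k ⊕ Fin n} (hc : c ∉ R)
    (a : Om k n) (v : Fin (Sz k n c)) (P : Om k n → Prop) :
    avg (fun b : Om k n => ind (b c = v ∧ P (mix R a b))) =
      (1 / (Sz k n c : ℝ)) *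
        avg (fun b : Om k n => ind (P (mix (insert c R) (Function.update a c v) b))) := by
  have h1 := avg_mix ({c} : Set (Fin k ⊕ Fin n))
    (fun b : Om k n => ind (b c = v ∧ P (mix R a b)))
  rw [← h1]
  have h2 : ∀ a' b : Om k n,
      ind ((mix ({c} : Set (Fin k ⊕ Fin n)) a' b) c = v ∧
        P (mix R a (mix ({c} : Set (Fin k ⊕ Fin n)) a' b))) =
      ind (a' c = v) * ind (P (mix (insert c R) (Function.update a c v) b)) := by
    intro a' b
    have hcc : (mix ({c} : Set (Fin k ⊕ Fin n)) a' b) c = a' c := mix_mem (Set.mem_singleton c)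
    rw [hcc]
    by_cases h : a' c = v
    · have h3 : mix R a (mix ({c} : Set (Fin k ⊕ Fin n)) a' b) =
          mix (insert c R) (Function.update a c v) b := by
        funext x
        by_cases hx : x = c
        · subst hx
          rw [mix_not_mem hc, hcc, mix_mem (Set.mem_insert _ _), Function.update_self, h]
        · by_cases hxR : x ∈ R
          · rw [mix_mem hxR, mix_mem (Set.mem_insert_of_mem _ hxR), Function.update_of_ne hx]
          · rw [mix_not_mem hxR, mix_not_mem (by simpa using hx), mix_not_mem (by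
              simp only [Set.mem_insert_iff, not_or]; exact ⟨hx, hxR⟩)]
      rw [h3]
      by_cases hP : P (mix (insert c R) (Function.update a c v) b)
      · rw [ind_true (⟨h, hP⟩ : _ ∧ _), ind_true h, ind_true hP]; norm_num
      · rw [ind_false (fun hh => hP hh.2), ind_false hP]; ring
    · rw [ind_false (fun hh => h hh.1), ind_false h]; ring
  simp only [h2]
  have h4 : ∀ a' : Om k n, avg (fun b : Om k n =>
      ind (a' c = v) * ind (P (mix (insert c R) (Function.update a c v) b))) =
      ind (a' c = v) *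
        avg (fun b : Om k n => ind (P (mix (insert c R) (Function.update a c v) b))) :=
    fun a' => avg_const_mul _ _
  simp only [h4]
  rw [avg_mul_const]
  congr 1
  have h5 := avg_box (C := Fin k ⊕ Fin n) (T := fun c => Fin (Sz k n c)) {c}
    (fun c' => if h : c' = c then {h ▸ v} else Finset.univ)
  have h6 : (fun ω : Om k n => ind (∀ c' ∈ ({c} : Finset (Fin k ⊕ Fin n)),
      ω c' ∈ (if h : c' = c then ({h ▸ v} : Finset (Fin (Sz k n c'))) else Finset.univ))) =
      fun ω : Om k n => ind (ω c = v) := by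
    funext ω
    congr 1
    simp
  rw [h6] at h5
  rw [h5]
  simp

end

end Pool.Agent.H68MN
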